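import Mathlib
import Pool.Agent.H18.HDF

set_option autoImplicit false
open MeasureTheory Complex Filter Topology

namespace Pool.Agent.Results.MP_8f84d8_an.HalfDisc

/-- `L¹(ℝ)` has no analytic semigroup which is bounded on the half-disc: there is no map `a` from the
open right half-plane to `L¹(ℝ)` which is holomorphic, multiplicative (`a (s + t)` is the convolution
of `a s` and `a t`), not identically zero, and bounded in norm on `{t : 0 < Re t, |t| ≤ 1}`. -/
theorem result :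
    ¬ ∃ a : ℂ → Lp ℂ 1 (volume : Measure ℝ),
      DifferentiableOn ℂ a {t | 0 < t.re} ∧
      (∀ s t : ℂ, 0 < s.re → 0 < t.re →
        (a (s + t) : ℝ → ℂ) =ᵐ[volume] fun x => ∫ y, a s (x - y) * a t y) ∧
      (∃ t : ℂ, 0 < t.re ∧ a t ≠ 0) ∧
      (∃ C : ℝ, ∀ t : ℂ, 0 < t.re → ‖t‖ ≤ 1 → ‖a t‖ ≤ C) := by
  classical
  rintro ⟨a, hd, hm, hne, C, hC⟩
  obtain ⟨U, ψ, L, hU, hUne, hψ, hU1, hU0, hL, hB⟩ :=
    Pool.Agent.H18.HD.exists_psi a hd hm hne C hC
  refine Pool.Agent.H18.HD.core U ψ L hU hUne hψ hL hB fun y hy => ?_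
  have hpos : 0 < 1 - |y| := by linarith
  set t : ℕ → ℂ := fun k => (((1 - |y|) * (1 / ((k : ℝ) + 1)) : ℝ) : ℂ) + I * y with ht
  have hεpos : ∀ k : ℕ, 0 < (1 - |y|) * (1 / ((k : ℝ) + 1)) := fun k => by positivity
  have hre : ∀ k, 0 < (t k).re := by
    intro k
    simp only [ht, add_re, ofReal_re, mul_re, I_re, zero_mul, I_im, one_mul, ofReal_im, sub_zero,
      add_zero, sub_self]
    exact hεpos k
  have hnorm : ∀ k, ‖t k‖ ≤ 1 := by
    intro k
    have h1 : (1 - |y|) * (1 / ((k : ℝ) + 1)) ≤ 1 - |y| := by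
      refine mul_le_of_le_one_right hpos.le ?_
      rw [div_le_one (by positivity)]
      linarith [Nat.cast_nonneg (α := ℝ) k]
    calc ‖t k‖ ≤ ‖(((1 - |y|) * (1 / ((k : ℝ) + 1)) : ℝ) : ℂ)‖ + ‖I * y‖ := norm_add_le _ _
      _ = (1 - |y|) * (1 / ((k : ℝ) + 1)) + |y| := by
        rw [norm_real, Real.norm_eq_abs, abs_of_pos (hεpos k), norm_mul, norm_I, one_mul,
          norm_real, Real.norm_eq_abs]
      _ ≤ 1 := by linarith
  have hlim : Tendsto t atTop (𝓝 (I * y)) := by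
    have h1 : Tendsto (fun k : ℕ => (1 - |y|) * (1 / ((k : ℝ) + 1))) atTop (𝓝 ((1 - |y|) * 0)) :=
      tendsto_one_div_add_atTop_nhds_zero_nat.const_mul _
    rw [mul_zero] at h1
    have h2 : Tendsto (fun k : ℕ => (((1 - |y|) * (1 / ((k : ℝ) + 1)) : ℝ) : ℂ)) atTop (𝓝 ((0 : ℝ) : ℂ)) :=
      (continuous_ofReal.tendsto _).comp h1
    have h3 := h2.add_const (I * (y : ℂ))
    rw [ofReal_zero, zero_add] at h3
    exact h3
  refine Pool.Agent.H18.HD.exists_rep (fun k => a (t k)) C (fun k => L1.integrable_coeFn _)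
    (fun k => ?_) _ (Eventually.of_forall fun ξ => ?_)
  · have h1 := hC (t k) (hre k) (hnorm k)
    rw [L1.norm_eq_integral_norm] at h1
    exact h1
  · by_cases hξ : ξ ∈ U
    · rw [if_pos hξ]
      simp_rw [hU1 ξ hξ _ (hre _)]
      have hc : Continuous fun z : ℂ => exp (-(z * ψ ξ)) := by fun_prop
      exact (hc.tendsto _).comp hlim
    · rw [if_neg hξ]
      simp_rw [hU0 ξ hξ _ (hre _)]
      exact tendsto_const_nhds

end Pool.Agent.Results.MP_8f84d8_an.HalfDisc
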